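import Pool.Agent.H44.GT.Targets
import Pool.Agent.H85.G2.Adapt

/-!
# `G_2`: the class of the scales is orthogonal to the cocycles of zero scale
-/

set_option autoImplicit false

namespace Pool.Agent.H85.GD

open Pool.Agent.H44.DU

theorem om_swap {n : ℕ} (c c' : Side n → ℝ) : Surf.Om c' c = - Surf.Om c c' := by
  unfold Surf.Om
  rw [← Finset.sum_neg_distrib]
  apply Finset.sum_congr rfl
  intro i _
  ring

theorem pf_G_2 : G_2 := by
  intro n S r φ κ hr hφ c hc ho
  have h1 : Surf.Om (Surf.coh r φ κ) c = 0 := Pool.Agent.H85.G2.pG2 hr κ φ hφ c hc ho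
  exact ⟨h1, by rw [om_swap, h1, neg_zero]⟩

end Pool.Agent.H85.GD
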