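import Pool.Agent.H44.GT.Targets

/-!
# `U_PLU`: the relation of Pluecker for the classes of zero scale
-/

set_option autoImplicit false

namespace Pool.Agent.H85.GD

open Pool.Agent.H44.DU

theorem om_lin {n : ℕ} (a₁ a₂ a₃ : ℝ) (c₁ c₂ c₃ e c : Side n → ℝ)
    (h : ∀ s, a₁ * c₁ s + a₂ * c₂ s + a₃ * c₃ s = e s) :
    Surf.Om e c = a₁ * Surf.Om c₁ c + a₂ * Surf.Om c₂ c + a₃ * Surf.Om c₃ c := by
  unfold Surf.Om
  rw [Finset.mul_sum, Finset.mul_sum, Finset.mul_sum, ← Finset.sum_add_distrib,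
    ← Finset.sum_add_distrib]
  apply Finset.sum_congr rfl
  intro i _
  rw [← h, ← h]
  ring

theorem om_neg {n : ℕ} (c c' : Side n → ℝ) : Surf.Om c' c = - Surf.Om c c' := by
  unfold Surf.Om
  rw [← Finset.sum_neg_distrib]
  apply Finset.sum_congr rfl
  intro i _
  ring

theorem pf_U_PLU (hG1 : G_1) (hG2 : G_2) : U_PLU := by
  intro n S hc ht hcp hg c₁ c₂ c₃ c₄ z1 z2 z3 z4 o1 o2 o3 o4
  obtain ⟨r, hr⟩ := hcp
  obtain ⟨a₁, a₂, a₃, κ, φ, hφ, hne, h⟩ := hG1 n S hc ht hg r hr c₁ c₂ c₃ z1 z2 z3 o1 o2 o3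
  have key : ∀ c : Side n → ℝ, S.Coc c → S.Orth c →
      a₁ * Surf.Om c₁ c + a₂ * Surf.Om c₂ c + a₃ * Surf.Om c₃ c = 0 := by
    intro c hz ho
    rw [← om_lin a₁ a₂ a₃ c₁ c₂ c₃ _ c h]
    exact (hG2 n S r φ κ hr hφ c hz ho).1
  have k1 := key c₁ z1 o1
  have k2 := key c₂ z2 o2
  have k3 := key c₃ z3 o3
  have k4 := key c₄ z4 o4
  have s12 := om_neg c₁ c₂
  have s13 := om_neg c₁ c₃
  have s23 := om_neg c₂ c₃
  have s11 : Surf.Om c₁ c₁ = 0 := by linarith [om_neg c₁ c₁]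
  have s22 : Surf.Om c₂ c₂ = 0 := by linarith [om_neg c₂ c₂]
  have s33 : Surf.Om c₃ c₃ = 0 := by linarith [om_neg c₃ c₃]
  rw [s12, s13, s11] at k1
  rw [s23, s22] at k2
  rw [s33] at k3
  set x12 := Surf.Om c₁ c₂
  set x13 := Surf.Om c₁ c₃
  set x23 := Surf.Om c₂ c₃
  set x14 := Surf.Om c₁ c₄
  set x24 := Surf.Om c₂ c₄
  set x34 := Surf.Om c₃ c₄
  rcases hne with ha | ha | ha
  · apply mul_left_cancel₀ ha
    rw [mul_zero]
    linear_combination x34 * k2 - x24 * k3 + x23 * k4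
  · apply mul_left_cancel₀ ha
    rw [mul_zero]
    linear_combination (-x34) * k1 + x14 * k3 - x13 * k4
  · apply mul_left_cancel₀ ha
    rw [mul_zero]
    linear_combination x24 * k1 - x14 * k2 + x12 * k4

end Pool.Agent.H85.GD
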