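import Pool.Agent.H44.GT.Targets
import Pool.Agent.H85.G2.Adapt

/-!
# `G_1`: three cocycles of zero scale are dependent modulo the class of the scales
-/

set_option autoImplicit false

namespace Pool.Agent.H85.GD

open Pool.Agent.H44.DU

theorem pf_G_1 : G_1 := by
  intro n S hc ht hg r hr c₁ c₂ c₃ h1 h2 h3 o1 o2 o3
  obtain ⟨a1, a2, a3, κ, φ, hφ, hne, h⟩ :=
    Pool.Agent.H85.G2.pG1 hc ht hr hg c₁ c₂ c₃ h1 h2 h3 o1 o2 o3
  refine ⟨a1, a2, a3, κ, φ, hφ, ?_, h⟩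
  by_contra hcon
  push Not at hcon
  exact hne hcon

end Pool.Agent.H85.GD
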